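import Pool.Agent.TH377.NC.Gen

/-!
# MP_2f3286_ag: plane curves given by norm forms, over number fields, for 100% of the constants

Let `K` be a number field, `E/K` a finite extension of degree `d`, and `D ≥ 1` a number such that some
element of the Galois group of `K` permutes the `d` embeddings of `E` in cycles whose lengths are all
divisible by `gcd(2, D) D` (for instance `E/K` cyclic of a degree divisible by `gcd(2, D) D`).  We consider
the plane curves of degree `d`

  `N_{E/K}(A₀ x₀ + A₁ x₁ + A₂ x₂) = a Q(x₀, x₁, x₂)ⁿ`,   `A₀, A₁, A₂ ∈ E`,  `a ∈ O_K`,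

where `n | d` is divisible by `D` and `Q` is a form of degree `d/n` over `K`.  The `d` conjugate lines meet
the curve with multiplicities divisible by `n`; for `d = 4`, `n = 2` these are the plane quartics with
four given conjugate bitangents.

For ALL `a ∈ O_K` outside ONE set of density zero, which depends only on `E` and `D`, the following is
true for ALL finite extensions `L/K` whose degree is not divisible by `D`, ALL `n`, ALL `A₀, A₁, A₂` and
ALL `Q` such that `Q` does not vanish at the points of intersection of the conjugate lines (this is part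
of the smoothness of the curve): the curve has no point over `L`, and the fundamental groups of all its
open subcurves over `L`, and of all smooth curves (or varieties) over `L` that dominate it, have no
sections over `G_L`.  For `L = K`: the section conjecture holds for these curves, there are neither points
nor sections.

Density zero is meant in the strongest sense: for every `ε > 0` there is an ideal `I ≠ 0` such that the
set lies in at most `ε #(O_K/I)` residue classes modulo `I`.

The fundamental group is described through valuations.  Let `U` be a smooth geometrically connected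
curve over `k` with function field `F`, let `Ω` be an algebraic closure of `F`, and let `F_U` be the
maximal extension of `F` inside `Ω` which is unramified over the closed points of `U`, that is, over
their local rings, which are valuation rings of `F`.  Then `π₁(U) = Gal(F_U/F)`, and the map
`π₁(U) → G_k` is the restriction of automorphisms to the algebraic closure of `k` in `Ω`.

Proof.  The local theorem and the density theorem are in the starting library (`Pool.Agent.TH377.NC`,
`Pool.Agent.TH120.Sec`, helper377 and helper120 and their helpers).  For `a` outside of a set of density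
zero there is a place `v` of `K` at which `a` is a uniformiser and whose Frobenius element permutes the
embeddings of `E` in cycles of lengths divisible by `gcd(2, D) D`; over `L` there are a prime number `l` and
a place over `v` at which the valuation of `a` is not divisible by `ℓ = l^j | D` while all cycles still have
lengths divisible by `gcd(2, ℓ) ℓ`.  If there was a section, the quotients of two conjugate linear forms
would be `ℓ`-th powers of functions fixed by the section, up to constants of an unramified extension, and
the sum of the valuations of these constants over a cycle would be `0` modulo `ℓ`; but it is the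
valuation of `a`.
-/

set_option autoImplicit false
set_option maxHeartbeats 400000

namespace Pool.Agent.Results.MP_2f3286_ag.NormCurves

open NumberField

universe u v w x y

section definitions

variable (k : Type u) (F : Type v) (Ω : Type w) [Field k] [Field F] [Field Ω] [Algebra k F]
  [Algebra F Ω] [Algebra k Ω]

/-- The inertia group of the valuation ring `W` of `Ω`, as a subgroup of `Gal(Ω/F)`: the
automorphisms of `Ω` over `F` that map `W` onto itself and act as the identity on its residue
field. -/
noncomputable def inertia (W : ValuationSubring Ω) : Subgroup (Ω ≃ₐ[F] Ω) :=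
  (W.inertiaSubgroup F).map (W.decompositionSubgroup F).subtype

/-- `F_U`, for a set `U` of valuation rings of `F`: the elements of `Ω` fixed by the inertia groups
of all valuation rings `W` of `Ω` with `W ∩ F ∈ U`.  If `Ω` is an algebraic closure of a field `F`
of characteristic zero, this is the maximal extension of `F` in `Ω` unramified over `U`. -/
noncomputable def unramified (U : Set (ValuationSubring F)) : IntermediateField F Ω :=
  ⨅ W : {W : ValuationSubring Ω // W.comap (algebraMap F Ω) ∈ U},
    IntermediateField.fixedField (inertia F Ω W.1)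

/-- The map `τ : M → M` acts as `σ : K → K` on the elements that the fields `K` and `M` have in
common when they are regarded as subfields of `Ω` through `i` and `j`. -/
def ActsAs {K M Ω : Type*} [Field K] [Field M] [Field Ω] (i : K →+* Ω) (j : M →+* Ω) (σ : K → K)
    (τ : M → M) : Prop :=
  ∀ c z, j z = i c → j (τ z) = i (σ c)

/-- Let `k ⊆ K ⊆ Ω` and `F ⊆ M ⊆ Ω` be fields.  A splitting of `Gal(M/F) → Gal(K/k)`: a continuous
homomorphism `s` from `Gal(K/k)` to `Gal(M/F)` such that `s(σ)` acts as `σ` on the elements of
`K ∩ M`. -/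
structure Splitting (K M : Type*) [Field K] [Field M] [Algebra k K] [Algebra F M] [Algebra K Ω]
    [Algebra M Ω] where
  /-- the homomorphism `Gal(K/k) → Gal(M/F)` -/
  toHom : (K ≃ₐ[k] K) →* (M ≃ₐ[F] M)
  cont : Continuous toHom
  compat : ∀ σ : K ≃ₐ[k] K, ActsAs (algebraMap K Ω) (algebraMap M Ω) σ (toHom σ)

/-- The sections of `π₁(U) = Gal(F_U/F) → G_k`: the continuous homomorphisms `s` from
`G_k = Gal(k̄/k)` to `Gal(F_U/F)`, where `k̄` is the algebraic closure of `k` in `Ω`, such that
`s(σ)` acts as `σ` on the elements of `k̄`. -/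
def GaloisSection (U : Set (ValuationSubring F)) : Type w :=
  Splitting k F Ω (algebraicClosure k Ω) (unramified F Ω U)

end definitions

section curve

variable {K : Type u} {E : Type x} [Field K] [Field E] [Algebra K E] [FiniteDimensional K E]

/-- The equation `N_{E/K}(A₀ x₀ + A₁ x₁ + A₂ x₂) = a Q(x₀, x₁, x₂)ⁿ` at a vector with entries in an
algebraically closed field `Ω` over `K`: the norm is the product over the embeddings `σ` of `E` into
`Ω` of the `σ(A₀) x₀ + σ(A₁) x₁ + σ(A₂) x₂`. -/
def OnCurve {Ω : Type*} [Field Ω] [Algebra K Ω] (A : Fin 3 → E) (a : K)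
    (Q : MvPolynomial (Fin 3) K) (n : ℕ) (x : Fin 3 → Ω) : Prop :=
  ∏ σ : E →ₐ[K] Ω, ∑ j, σ (A j) * x j = algebraMap K Ω a * MvPolynomial.aeval x Q ^ n

/-- The form `Q` does not vanish at the points of intersection of two conjugate lines
`σ(A₀) x₀ + σ(A₁) x₁ + σ(A₂) x₂ = 0`.  (In particular these lines are different.) -/
def Transversal (A : Fin 3 → E) (Q : MvPolynomial (Fin 3) K) : Prop :=
  ∀ σ τ : E →ₐ[K] AlgebraicClosure K, σ ≠ τ →
    MvPolynomial.aeval (crossProduct (fun j => σ (A j)) (fun j => τ (A j))) Q ≠ 0

/-- The curve has no point over `L`. -/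
def NoPoint (L : Type y) [Field L] [Algebra K L] (A : Fin 3 → E) (a : K)
    (Q : MvPolynomial (Fin 3) K) (n : ℕ) : Prop :=
  ∀ x : Fin 3 → L, x ≠ 0 → ¬ OnCurve A a Q n fun j => algebraMap L (AlgebraicClosure L) (x j)

/-- Let `F` be any field over `L` that contains a point of the curve, for instance the function field
of the curve over `L`, and let `Ω` be an algebraic closure of `F`.  Then for every set `U` of
valuation rings of `F` over `L` there is no section of `π₁(U) → G_L`.  If `F` is the function field of
the curve, such `U` are given by its normalisation and by all its open subcurves. -/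
def NoSection (L : Type y) [Field L] [Algebra K L] (A : Fin 3 → E) (a : K)
    (Q : MvPolynomial (Fin 3) K) (n : ℕ) : Prop :=
  ∀ (F : Type v) (Ω : Type w) [Field F] [Field Ω] [Algebra L F] [Algebra F Ω] [Algebra L Ω]
    [Algebra K Ω] [IsScalarTower L F Ω] [IsScalarTower K L Ω] [IsAlgClosure F Ω] (x : Fin 3 → F)
    (U : Set (ValuationSubring F)), x ≠ 0 → OnCurve A a Q n (fun j => algebraMap F Ω (x j)) →
      (∀ O ∈ U, ∀ c : L, algebraMap L F c ∈ O) → IsEmpty (GaloisSection L F Ω U)

end curve

/-- Some element of the Galois group of `K` permutes the embeddings of `E` in cycles whose lengths are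
all divisible by `N`. -/
def HasCycles (K : Type u) (E : Type x) [Field K] [Field E] [Algebra K E] (N : ℕ) : Prop :=
  ∃ σ : AlgebraicClosure K ≃ₐ[K] AlgebraicClosure K, ∀ (τ : E →ₐ[K] AlgebraicClosure K) (m : ℕ),
    (∀ z, (σ ^ m) (τ z) = τ z) → N ∣ m

/-- All the assertions for the extension `E/K` and the numbers `D` and `a`: for all finite extensions `L`
of `K` such that `D` does not divide `[L : K]`, all `n | [E : K]` divisible by `D`, all `A₀, A₁, A₂ ∈ E` and
all forms `Q` of degree `[E : K]/n` over `K` that do not vanish at the points of intersection of the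
conjugate lines, the curve `N_{E/K}(A₀ x₀ + A₁ x₁ + A₂ x₂) = a Qⁿ` has no point and no section over
`L`. -/
def NothingOver {K : Type u} (E : Type x) [Field K] [Field E] [Algebra K E] [FiniteDimensional K E]
    (D : ℕ) (a : K) : Prop :=
  ∀ (L : Type y) [Field L] [Algebra K L] [FiniteDimensional K L],
    ¬ D ∣ Module.finrank K L → ∀ n q : ℕ, D ∣ n → n * q = Module.finrank K E →
      ∀ (A : Fin 3 → E) (Q : MvPolynomial (Fin 3) K), Q.IsHomogeneous q → Transversal A Q →
        NoPoint L A a Q n ∧ NoSection.{u, v, w} L A a Q n

/-- Density zero: for every `ε > 0` there is an ideal `I ≠ 0` such that `S` lies in at most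
`ε #(O_K/I)` residue classes modulo `I`. -/
def DensityZero {K : Type u} [Field K] (S : Set (𝓞 K)) : Prop :=
  ∀ ε : ℝ, 0 < ε → ∃ I : Ideal (𝓞 K), I ≠ ⊥ ∧
    (Set.ncard ((Ideal.Quotient.mk I) '' S) : ℝ) ≤ ε * Nat.card (𝓞 K ⧸ I)

section proof

open Pool.Agent.TH377.NC Polynomial IsDedekindDomain Pool.Agent.TH377.LocG Pool.Agent.TH120.Sec
  Pool.Agent.W620.SC

lemma toSec {k : Type u} {F : Type v} {Ω : Type w} [Field k] [Field F] [Field Ω] [Algebra k F]
    [Algebra F Ω] [Algebra k Ω] (U : Set (ValuationSubring F))
    (h : IsEmpty (Pool.Agent.W620.SC.GSection k F Ω U)) : IsEmpty (GaloisSection k F Ω U) :=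
  ⟨fun s => h.false ⟨s.toHom, s.cont, s.compat⟩⟩

/-- a good place gives the assertions -/
theorem of_place {K : Type u} [Field K] [NumberField K] {E : Type x} [Field E] [Algebra K E]
    [FiniteDimensional K E] (pb : PowerBasis K E) (g : (𝓞 K)[X]) (hg : g.Monic)
    (hgK : g.map (algebraMap (𝓞 K) K) = minpoly K pb.gen)
    (hgd : g.natDegree = Module.finrank K E) (D : ℕ) (hD : D ≠ 0) (a : 𝓞 K)
    (v₀ : HeightOneSpectrum (𝓞 K)) (ha : a ∈ v₀.asIdeal) (ha' : a ∉ v₀.asIdeal ^ 2)
    (hs : (g.map (Ideal.Quotient.mk v₀.asIdeal)).Separable)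
    (hcyc : ∀ n : ℕ, ¬ Nat.gcd 2 D * D ∣ n → IsCoprime (X ^ (Ideal.absNorm v₀.asIdeal ^ n) - X)
      (g.map (Ideal.Quotient.mk v₀.asIdeal))) :
    NothingOver.{u, v, w, x, y} E D (algebraMap (𝓞 K) K a) := by
  intro L _ _ _ hL n q hDn hnq A Q hQ htr
  have hLn : NumberField L := NumberField.of_module_finite K L
  obtain ⟨ℓ, hℓ0, hℓD, B, _, _, _, _, hfr, f, hf, hfK, hfs, hfd, ϖ, t, m', hϖ, ht, hm', hat⟩ :=
    nf_data (K := K) (L := L) v₀ D hD hL g hg hs hcyc a ha ha'
  obtain ⟨n', rfl⟩ := hℓD.trans hDn
  have hd0 : Module.finrank K E ≠ 0 := by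
    have : 0 < Module.finrank K E := Module.finrank_pos
    exact this.ne'
  have hn' : 0 < n' := by
    rcases Nat.eq_zero_or_pos n' with h | h
    · rw [h, mul_zero, zero_mul] at hnq
      exact absurd hnq.symm hd0
    · exact h
  have hfL : f.map (algebraMap B L) = (minpoly K pb.gen).map (algebraMap K L) := by
    rw [hfK, ← hgK, Polynomial.map_map, ← IsScalarTower.algebraMap_eq (𝓞 K) K L]
  have hfdeg : f.natDegree = n' * ℓ * q := by
    have h1 : (f.map (algebraMap B L)).natDegree = f.natDegree := hf.natDegree_map _
    rw [← h1, hfK, hg.natDegree_map, hgd, ← hnq]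
    ring
  choose P hP using fun j => pb.exists_eq_aeval' (A j)
  have hA : A = fun j => aeval pb.gen (P j) := funext hP
  have hQL : (MvPolynomial.map (algebraMap K L) Q).IsHomogeneous q := hQ.map _
  have htr' : ∀ σ τ : E →ₐ[K] AlgebraicClosure K, σ ≠ τ → MvPolynomial.aeval
      (crossProduct (fun j => σ (aeval pb.gen (P j))) (fun j => τ (aeval pb.gen (P j)))) Q ≠ 0 := by
    intro σ τ hστ
    have h1 := htr σ τ hστ
    rw [hA] at h1
    exact h1
  have haL : algebraMap K L (algebraMap (𝓞 K) K a) = algebraMap B L t * algebraMap B L ϖ ^ m' := by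
    rw [← hat, ← IsScalarTower.algebraMap_apply (𝓞 K) K L]
  refine ⟨?_, ?_⟩
  · intro x hx hon
    have hst : IsScalarTower K L (AlgebraicClosure L) := inferInstance
    refine local_point (A := B) (k := L) (kb := AlgebraicClosure L) ℓ hℓ0 f hf hfs hfd ϖ hϖ
      (algebraMap K L (algebraMap (𝓞 K) K a)) t ht m' hm' haL
      (fun j => (P j).map (algebraMap K L))
      (MvPolynomial.map (algebraMap K L) Q) q hQL ?_ x hx n' hn' ?_
    · intro θ θ' hθ hθ' hne
      rw [hfL, aeval_map_algebraMap] at hθ hθ'
      exact nd_lift pb P Q htr' θ θ' hθ hθ' hne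
    · rw [hfL, ← norm_roots' pb P]
      unfold OnCurve at hon
      rw [hA] at hon
      rw [hon, ← IsScalarTower.algebraMap_apply, mul_comm n' ℓ]
      congr 2
      rw [MvPolynomial.aeval_def, MvPolynomial.eval₂_map, MvPolynomial.hom_eval₂,
        RingHom.id_comp, ← IsScalarTower.algebraMap_eq]
  · intro F Ω _ _ _ _ _ _ _ _ _ x U hx hon hU
    have hcl : IsAlgClosed Ω := IsAlgClosure.isAlgClosed F
    have halg : Algebra.IsAlgebraic F Ω := IsAlgClosure.isAlgebraic
    have hac : IsAlgClosure L (algebraicClosure L Ω) := inferInstance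
    have hkb : IsAlgClosed (algebraicClosure L Ω) := hac.1
    refine toSec U (local_section (A := B) (k := L) ℓ hℓ0 f hf hfs hfd ϖ hϖ
      (algebraMap K L (algebraMap (𝓞 K) K a)) t ht m' hm' haL U hU
      (fun j => (P j).map (algebraMap K L))
      (MvPolynomial.map (algebraMap K L) Q) q hQL ?_ x hx n' hn' hfdeg ?_)
    · intro θ θ' hθ hθ' hne
      rw [hfL, aeval_map_algebraMap] at hθ hθ'
      exact nd_lift pb P Q htr' θ θ' hθ hθ' hne
    · rw [hfL, ← norm_roots' pb P]
      unfold OnCurve at hon
      rw [hA] at hon
      rw [hon, ← IsScalarTower.algebraMap_apply, mul_comm n' ℓ]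
      congr 2
      rw [MvPolynomial.aeval_def, MvPolynomial.eval₂_map, MvPolynomial.hom_eval₂,
        ← RingHom.comp_assoc, ← IsScalarTower.algebraMap_eq L F Ω,
        ← IsScalarTower.algebraMap_eq K L Ω]

/-- Galois extensions with an element of an order divisible by `N` -/
theorem hasCycles_of_galois {K : Type u} [Field K] {E : Type x} [Field E] [Algebra K E]
    [FiniteDimensional K E] [IsGalois K E] (N : ℕ) (s : E ≃ₐ[K] E) (hs : N ∣ orderOf s) :
    HasCycles K E N := by
  let τ₀ : E →ₐ[K] AlgebraicClosure K := IsAlgClosed.lift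
  let _ : Algebra E (AlgebraicClosure K) := τ₀.toRingHom.toAlgebra
  have hst : IsScalarTower K E (AlgebraicClosure K) :=
    IsScalarTower.of_algebraMap_eq fun z => (τ₀.commutes z).symm
  refine ⟨s.liftNormal (AlgebraicClosure K), fun τ m hm => hs.trans ?_⟩
  have hpow : ∀ (m : ℕ) (z : E), ((s.liftNormal (AlgebraicClosure K)) ^ m)
      (algebraMap E (AlgebraicClosure K) z) = algebraMap E (AlgebraicClosure K) ((s ^ m) z) := by
    intro m
    induction m with
    | zero => intro z; simp
    | succ m ih =>
      intro z
      rw [pow_succ, pow_succ, AlgEquiv.mul_apply, AlgEquiv.mul_apply, AlgEquiv.liftNormal_commutes,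
        ih]
  have hsurj : Function.Surjective (τ.restrictNormal E) := by
    have := (τ.restrictNormal E).toLinearMap.injective_iff_surjective.1
      (τ.restrictNormal E).toRingHom.injective
    exact this
  refine orderOf_dvd_of_pow_eq_one (AlgEquiv.ext fun z => ?_)
  obtain ⟨y, rfl⟩ := hsurj z
  apply (algebraMap E (AlgebraicClosure K)).injective
  rw [← hpow, AlgEquiv.one_apply, AlgHom.restrictNormal_commutes]
  exact hm y

end proof

/-- (1) Let `K` be a number field, `E/K` a finite extension and `D ≥ 1` such that some element of the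
Galois group of `K` permutes the embeddings of `E` in cycles whose lengths are all divisible by
`gcd(2, D) D`.  Then for all `a ∈ O_K` outside of a set of density zero, for all finite extensions `L` of
`K` whose degree is not divisible by `D`, all `n | [E : K]` divisible by `D`, all `A₀, A₁, A₂ ∈ E` and all
forms `Q` of degree `[E : K]/n` over `K` that do not vanish at the points of intersection of the conjugate
lines, the plane curve `N_{E/K}(A₀ x₀ + A₁ x₁ + A₂ x₂) = a Qⁿ` has no point over `L`, and the fundamental
groups of its open subcurves over `L` and of all smooth curves over `L` that dominate it have no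
sections over `G_L`.  (2) The condition on `E` holds if `E/K` is Galois and the order of some element of
its Galois group is divisible by `gcd(2, D) D`. -/
theorem result (K : Type u) [Field K] [NumberField K] (E : Type x) [Field E] [Algebra K E]
    [FiniteDimensional K E] (D : ℕ) (hD : D ≠ 0) :
    (HasCycles K E (Nat.gcd 2 D * D) →
      DensityZero {a : 𝓞 K | ¬ NothingOver.{u, v, w, x, y} E D (algebraMap (𝓞 K) K a)}) ∧
    ((IsGalois K E ∧ ∃ s : E ≃ₐ[K] E, Nat.gcd 2 D * D ∣ orderOf s) →
      HasCycles K E (Nat.gcd 2 D * D)) := by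
  refine ⟨?_, fun ⟨_, s, hs⟩ => hasCycles_of_galois _ s hs⟩
  rintro ⟨σ, hσ⟩
  classical
  rcases Nat.lt_or_ge D 2 with hD2 | hD2
  · -- `D = 1`: nothing to prove
    have hD1 : D = 1 := by omega
    subst hD1
    have hempty : {a : 𝓞 K | ¬ NothingOver.{u, v, w, x, y} E 1 (algebraMap (𝓞 K) K a)} = ∅ := by
      rw [Set.eq_empty_iff_forall_notMem]
      intro a ha
      exact ha fun L _ _ _ hL => absurd (one_dvd _) hL
    rw [hempty]
    intro ε hε
    refine ⟨⊤, top_ne_bot, ?_⟩
    rw [Set.image_empty, Set.ncard_empty, Nat.cast_zero]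
    positivity
  obtain ⟨pb, g, hg, hgK, hgd⟩ := Pool.Agent.TH377.NC.exists_gen K E
  have hN : 3 ≤ Nat.gcd 2 D * D := by
    rcases Nat.lt_or_ge D 3 with h | h
    · have : D = 2 := by omega
      subst this
      decide
    · have : 0 < Nat.gcd 2 D := Nat.gcd_pos_of_pos_left _ two_pos
      nlinarith
  have hsp := Pool.Agent.TH377.NC.spc_of_gen pb g hg hgK _ hN σ hσ
  refine Pool.Agent.TH120.Sec.fam_dz _ _ _ _ σ hsp _ ?_
  rintro a ha v₀ ⟨h1, h2, h3⟩
  rw [Polynomial.eval_X] at h1 h2
  obtain ⟨_, _, h4, _, h5⟩ := h3
  have hmap : (g.map Polynomial.C).map (Polynomial.evalRingHom a) = g := by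
    rw [Polynomial.map_map]
    have : (Polynomial.evalRingHom a).comp Polynomial.C = RingHom.id (𝓞 K) := by
      ext z
      simp
    rw [this, Polynomial.map_id]
  rw [hmap] at h4 h5
  exact ha (of_place pb g hg hgK hgd D hD a v₀ h1 h2 h4 (h5 (by omega)))

end Pool.Agent.Results.MP_2f3286_ag.NormCurves
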